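import Mathlib

/-!
Sets in a product of odd cyclic groups without differences in the set of the vectors with all
coordinates in `{0, 1, -1}` and an odd number of nonzero coordinates.
-/

set_option autoImplicit false

namespace Pool.Agent.H467R3.Odd

open Finset
open scoped Classical

variable {ι : Type} [Fintype ι] (q : ι → ℕ)

/-- all coordinates in `{0, 1, -1}` and an odd number of nonzero coordinates -/
def OddStep (m : ∀ i, ZMod (q i)) : Prop :=
  (∀ i, m i = 0 ∨ m i = 1 ∨ m i = -1) ∧ Odd (univ.filter (fun i => m i ≠ 0)).card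

theorem OddStep.neg {m : ∀ i, ZMod (q i)} (h : OddStep q m) : OddStep q (-m) := by
  refine ⟨fun i => ?_, ?_⟩
  · rcases h.1 i with h1 | h1 | h1
    · left; simp [h1]
    · right; right; simp [h1]
    · right; left; simp [h1]
  · have : (univ.filter (fun i => (-m) i ≠ 0)) = univ.filter (fun i => m i ≠ 0) := by
      ext i; simp
    rw [this]; exact h.2

/-- the indicator vector of `J` -/
noncomputable def ind (J : Finset ι) : ∀ i, ZMod (q i) := fun i => if i ∈ J then 1 else 0

/-- the set `A - {0,1}^I` -/
noncomputable def hull [∀ i, NeZero (q i)] (A : Finset (∀ i, ZMod (q i))) (I : Finset ι) :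
    Finset (∀ i, ZMod (q i)) :=
  univ.filter fun x => ∃ J ⊆ I, x + ind q J ∈ A

theorem mem_hull [∀ i, NeZero (q i)] (A : Finset (∀ i, ZMod (q i))) (I : Finset ι)
    (x : ∀ i, ZMod (q i)) : x ∈ hull q A I ↔ ∃ J ⊆ I, x + ind q J ∈ A := by
  simp [hull]

theorem ind_insert (J : Finset ι) (j : ι) (hj : j ∉ J) :
    ind q (insert j J) = ind q {j} + ind q J := by
  funext i
  simp only [ind, Pi.add_apply, mem_insert, mem_singleton]
  by_cases h : i = j
  · subst h; simp [hj]
  · simp [h]

/-- growth in one direction -/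
theorem grow [∀ i, NeZero (q i)] (B : Finset (∀ i, ZMod (q i))) (j : ι)
    (hB : ∀ x, ∃ t : ℕ, x + t • ind q {j} ∉ B) :
    B.card ≤ (univ.filter fun x => x ∉ B ∧ x + ind q {j} ∈ B).card * (q j - 1) := by
  have hQ : 0 < q j := Nat.pos_of_ne_zero (NeZero.ne _)
  have hper : ∀ t : ℕ, (q j * t) • ind q {j} = 0 := by
    intro t
    funext i
    simp only [ind, mem_singleton, Pi.smul_apply, Pi.zero_apply]
    by_cases h : i = j
    · subst h; simp
    · simp [h]
  have key : ∀ x ∈ B, ∃ t : ℕ, 1 ≤ t ∧ t ≤ q j - 1 ∧ x - t • ind q {j} ∉ B := by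
    intro x hx
    obtain ⟨t, ht⟩ := hB x
    have hmod : x + (t % q j) • ind q {j} ∉ B := by
      have : t • ind q {j} = (t % q j) • ind q {j} := by
        conv_lhs => rw [← Nat.div_add_mod t (q j), add_smul, hper, zero_add]
      rwa [← this]
    have h0 : t % q j ≠ 0 := by
      intro h0
      rw [h0] at hmod
      simp at hmod
      exact hmod hx
    have hlt := Nat.mod_lt t hQ
    refine ⟨q j - t % q j, by omega, by omega, ?_⟩
    have h2 : x - (q j - t % q j) • ind q {j} = x + (t % q j) • ind q {j} := by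
      have h3 : (q j - t % q j) • ind q {j} + (t % q j) • ind q {j} = 0 := by
        rw [← add_smul, Nat.sub_add_cancel hlt.le]
        simpa using hper 1
      rw [sub_eq_add_neg, ← eq_neg_of_add_eq_zero_right h3]
    rwa [h2]
  -- the minimal step
  let P : (∀ i, ZMod (q i)) → ℕ → Prop := fun x t => 1 ≤ t ∧ x - t • ind q {j} ∉ B
  let τ : (∀ i, ZMod (q i)) → ℕ := fun x => if h : ∃ t, P x t then Nat.find h else 1
  have hτ : ∀ x ∈ B, P x (τ x) ∧ τ x ≤ q j - 1 ∧ x - τ x • ind q {j} + ind q {j} ∈ B := by
    intro x hx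
    obtain ⟨t, ht1, ht2, ht3⟩ := key x hx
    have hex : ∃ t, P x t := ⟨t, ht1, ht3⟩
    have hdef : τ x = Nat.find hex := by simp only [τ]; rw [dif_pos hex]
    rw [hdef]
    refine ⟨Nat.find_spec hex, (Nat.find_min' hex ⟨ht1, ht3⟩).trans ht2, ?_⟩
    have hpos : 1 ≤ Nat.find hex := (Nat.find_spec hex).1
    by_cases h1 : Nat.find hex = 1
    · rw [h1]; simpa using hx
    · have hmin := Nat.find_min hex (m := Nat.find hex - 1) (by omega)
      simp only [P, not_and, not_not] at hmin
      have h2 := hmin (by omega)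
      have h3 : Nat.find hex • ind q {j} = (Nat.find hex - 1) • ind q {j} + ind q {j} := by
        conv_lhs => rw [show Nat.find hex = (Nat.find hex - 1) + 1 by omega, add_smul, one_smul]
      rw [h3]
      have h4 : x - ((Nat.find hex - 1) • ind q {j} + ind q {j}) + ind q {j}
          = x - (Nat.find hex - 1) • ind q {j} := by abel
      rwa [h4]
  have hcard : B.card ≤ ((univ.filter fun x => x ∉ B ∧ x + ind q {j} ∈ B) ×ˢ
      (Finset.Icc 1 (q j - 1))).card := by
    apply Finset.card_le_card_of_injOn (fun x => (x - τ x • ind q {j}, τ x))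
    · intro x hx
      have h := hτ x hx
      simp only [coe_product, Set.mem_prod, mem_coe, mem_filter, mem_univ, true_and, mem_Icc]
      exact ⟨⟨h.1.2, h.2.2⟩, h.1.1, h.2.1⟩
    · intro x hx y hy hxy
      simp only [Prod.mk.injEq] at hxy
      obtain ⟨h1, h2⟩ := hxy
      rw [h2] at h1
      exact sub_left_injective h1
  rw [card_product] at hcard
  simpa using hcard

/-- no full line -/
theorem no_line [∀ i, NeZero (q i)] (hodd : ∀ i, Odd (q i)) (h3 : ∀ i, 3 ≤ q i)
    (A : Finset (∀ i, ZMod (q i)))
    (hA : ∀ a ∈ A, ∀ b ∈ A, ¬ OddStep q (b - a)) (I : Finset ι) (j : ι) (hj : j ∉ I)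
    (x : ∀ i, ZMod (q i)) : ∃ t : ℕ, x + t • ind q {j} ∉ hull q A I := by
  by_contra hcon
  push Not at hcon
  have hne : ∀ i, (1 : ZMod (q i)) ≠ 0 := by
    intro i
    haveI : Fact (1 < q i) := ⟨by have := h3 i; omega⟩
    exact one_ne_zero
  let Jf : (∀ i, ZMod (q i)) → Finset ι := fun y =>
    if h : ∃ J ⊆ I, y + ind q J ∈ A then h.choose else ∅
  have hJ : ∀ t : ℕ, Jf (x + t • ind q {j}) ⊆ I ∧
      (x + t • ind q {j}) + ind q (Jf (x + t • ind q {j})) ∈ A := by
    intro t
    have h := (mem_hull q A I _).mp (hcon t)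
    have hd : Jf (x + t • ind q {j}) = h.choose := by simp only [Jf]; rw [dif_pos h]
    rw [hd]
    exact h.choose_spec
  let g : ℕ → ZMod 2 := fun t => ((Jf (x + t • ind q {j})).card : ZMod 2)
  have hstep : ∀ t, g (t + 1) = g t + 1 := by
    intro t
    set y := x + t • ind q {j} with hy
    have hy1 : x + (t + 1) • ind q {j} = y + ind q {j} := by
      rw [hy, add_smul, one_smul]; abel
    have hJ0 := hJ t
    have hJ1 := hJ (t + 1)
    rw [← hy] at hJ0
    rw [hy1] at hJ1
    have hg1 : g (t + 1) = ((Jf (y + ind q {j})).card : ZMod 2) := by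
      simp only [g]; rw [hy1]
    have hg0 : g t = ((Jf y).card : ZMod 2) := rfl
    rw [hg1, hg0]
    set K := Jf y
    set K' := Jf (y + ind q {j})
    have hnot := hA _ hJ0.2 _ hJ1.2
    have hdiff : (y + ind q {j} + ind q K') - (y + ind q K) = ind q {j} + ind q K' - ind q K := by
      abel
    rw [hdiff] at hnot
    have hjK : j ∉ K := fun h => hj (hJ0.1 h)
    have hjK' : j ∉ K' := fun h => hj (hJ1.1 h)
    have hcoord : ∀ i, (ind q {j} + ind q K' - ind q K) i =
        if i = j then 1 else if i ∈ K' then (if i ∈ K then 0 else 1)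
          else (if i ∈ K then -1 else 0) := by
      intro i
      simp only [Pi.sub_apply, Pi.add_apply, ind, mem_singleton]
      by_cases h : i = j
      · subst h; simp [hjK, hjK']
      · by_cases h1 : i ∈ K' <;> by_cases h2 : i ∈ K <;> simp [h, h1, h2]
    have hval : ∀ i, (ind q {j} + ind q K' - ind q K) i = 0 ∨
        (ind q {j} + ind q K' - ind q K) i = 1 ∨ (ind q {j} + ind q K' - ind q K) i = -1 := by
      intro i
      rw [hcoord i]
      split_ifs <;> simp
    have hfilt : (univ.filter fun i => (ind q {j} + ind q K' - ind q K) i ≠ 0) =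
        insert j ((K \ K') ∪ (K' \ K)) := by
      ext i
      simp only [mem_filter, mem_univ, true_and, hcoord i, mem_insert, mem_union, mem_sdiff]
      by_cases h : i = j
      · subst h; simp [hne]
      · by_cases h1 : i ∈ K' <;> by_cases h2 : i ∈ K <;> simp [h, h1, h2, hne]
    have hnotodd : ¬ Odd (insert j ((K \ K') ∪ (K' \ K))).card := by
      intro h
      exact hnot ⟨hval, by rw [hfilt]; exact h⟩
    have hcard : (insert j ((K \ K') ∪ (K' \ K))).card = (K \ K').card + (K' \ K).card + 1 := by
      rw [card_insert_of_notMem, card_union_of_disjoint]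
      · exact disjoint_sdiff_sdiff
      · simp [hjK, hjK']
    have e1 := card_sdiff_add_card_inter K K'
    have e2 := card_sdiff_add_card_inter K' K
    rw [inter_comm K' K] at e2
    rw [hcard, Nat.not_odd_iff_even] at hnotodd
    have : Odd (K.card + K'.card) := by
      rw [← e1, ← e2]
      obtain ⟨r, hr⟩ := hnotodd
      refine ⟨r + (K ∩ K').card - 1, ?_⟩
      omega
    obtain ⟨r, hr⟩ := this
    have h5 : ((K.card + K'.card : ℕ) : ZMod 2) = ((2 * r + 1 : ℕ) : ZMod 2) := by rw [hr]
    push_cast at h5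
    have h2 : (2 : ZMod 2) = 0 := rfl
    rw [h2, zero_mul, zero_add] at h5
    have h6 : (K.card : ZMod 2) + (K.card : ZMod 2) = 0 := by
      have : (K.card : ZMod 2) + (K.card : ZMod 2) = 2 * (K.card : ZMod 2) := by ring
      rw [this, h2, zero_mul]
    calc (K'.card : ZMod 2) = (K.card + K'.card) + K.card - (K.card + K.card) := by ring
      _ = K.card + 1 := by rw [h5, h6]; ring
  have hall : ∀ t, g t = g 0 + t := by
    intro t
    induction t with
    | zero => simp
    | succ n ih => rw [hstep, ih]; push_cast; ring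
  have hper : g (q j) = g 0 := by
    have : x + (q j) • ind q {j} = x + 0 • ind q {j} := by
      congr 1
      funext i
      simp only [ind, mem_singleton, Pi.smul_apply, zero_smul, Pi.zero_apply]
      by_cases h : i = j
      · subst h; simp
      · simp [h]
    simp only [g]; rw [this]
  have h7 := hall (q j)
  rw [hper] at h7
  have h8 : ((q j : ℕ) : ZMod 2) = 0 := by
    have : g 0 = g 0 + ((q j : ℕ) : ZMod 2) := h7
    simpa using this.symm
  rw [ZMod.natCast_eq_zero_iff] at h8
  obtain ⟨r, hr⟩ := hodd j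
  omega

theorem hull_card [∀ i, NeZero (q i)] (hodd : ∀ i, Odd (q i)) (h3 : ∀ i, 3 ≤ q i)
    (A : Finset (∀ i, ZMod (q i)))
    (hA : ∀ a ∈ A, ∀ b ∈ A, ¬ OddStep q (b - a)) (I : Finset ι) :
    A.card * ∏ i ∈ I, q i ≤ (hull q A I).card * ∏ i ∈ I, (q i - 1) := by
  induction I using Finset.induction_on with
  | empty =>
    simp only [prod_empty, mul_one]
    apply card_le_card
    intro a ha
    rw [mem_hull]
    refine ⟨∅, subset_rfl, ?_⟩
    have : ind q (∅ : Finset ι) = 0 := by funext i; simp [ind]
    rw [this, add_zero]; exact ha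
  | insert j I hj ih =>
    rw [prod_insert hj, prod_insert hj]
    set B := hull q A I with hB
    set D := univ.filter fun x => x ∉ B ∧ x + ind q {j} ∈ B with hD
    have hg : B.card ≤ D.card * (q j - 1) :=
      grow q B j (fun x => no_line q hodd h3 A hA I j hj x)
    have hsub : B ∪ D ⊆ hull q A (insert j I) := by
      intro x hx
      rw [mem_union] at hx
      rcases hx with hx | hx
      · rw [hB, mem_hull] at hx
        obtain ⟨J, hJ, hJA⟩ := hx
        rw [mem_hull]
        exact ⟨J, hJ.trans (subset_insert _ _), hJA⟩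
      · simp only [hD, mem_filter, mem_univ, true_and] at hx
        have hx2 := hx.2
        rw [hB, mem_hull] at hx2
        obtain ⟨J, hJ, hJA⟩ := hx2
        rw [mem_hull]
        refine ⟨insert j J, insert_subset_insert _ hJ, ?_⟩
        rw [ind_insert q J j (fun h => hj (hJ h)), ← add_assoc]
        exact hJA
    have hdisj : Disjoint B D := by
      rw [Finset.disjoint_left]
      intro x hx hx'
      simp only [hD, mem_filter, mem_univ, true_and] at hx'
      exact hx'.1 hx
    have hc : B.card + D.card ≤ (hull q A (insert j I)).card := by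
      rw [← card_union_of_disjoint hdisj]; exact card_le_card hsub
    have hq : q j = (q j - 1) + 1 := by have := h3 j; omega
    have h9 : B.card * q j ≤ (hull q A (insert j I)).card * (q j - 1) := by
      calc B.card * q j = B.card * (q j - 1) + B.card := by
            conv_lhs => rw [hq]
            ring
        _ ≤ B.card * (q j - 1) + D.card * (q j - 1) := by omega
        _ = (B.card + D.card) * (q j - 1) := by ring
        _ ≤ _ := Nat.mul_le_mul_right _ hc
    calc A.card * (q j * ∏ i ∈ I, q i) = (A.card * ∏ i ∈ I, q i) * q j := by ring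
      _ ≤ (B.card * ∏ i ∈ I, (q i - 1)) * q j := Nat.mul_le_mul_right _ ih
      _ = (B.card * q j) * ∏ i ∈ I, (q i - 1) := by ring
      _ ≤ ((hull q A (insert j I)).card * (q j - 1)) * ∏ i ∈ I, (q i - 1) :=
          Nat.mul_le_mul_right _ h9
      _ = _ := by ring

/-- **the extremal bound** -/
theorem card_le [∀ i, NeZero (q i)] (hodd : ∀ i, Odd (q i)) (h3 : ∀ i, 3 ≤ q i)
    (A : Finset (∀ i, ZMod (q i)))
    (hA : ∀ a ∈ A, ∀ b ∈ A, ¬ OddStep q (b - a)) : A.card ≤ ∏ i, (q i - 1) := by
  have h := hull_card q hodd h3 A hA univ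
  have h1 : (hull q A univ).card ≤ ∏ i, q i := by
    calc (hull q A univ).card ≤ (univ : Finset (∀ i, ZMod (q i))).card := card_le_card (subset_univ _)
      _ = ∏ i, q i := by
        rw [card_univ, Fintype.card_pi]
        exact prod_congr rfl fun i _ => ZMod.card _
  have hpos : 0 < ∏ i, q i := prod_pos fun i _ => Nat.pos_of_ne_zero (NeZero.ne _)
  have h2 : A.card * ∏ i, q i ≤ (∏ i, (q i - 1)) * ∏ i, q i := by
    calc A.card * ∏ i, q i ≤ (hull q A univ).card * ∏ i, (q i - 1) := h
      _ ≤ (∏ i, q i) * ∏ i, (q i - 1) := Nat.mul_le_mul_right _ h1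
      _ = _ := by ring
  exact Nat.le_of_mul_le_mul_right h2 hpos

end Pool.Agent.H467R3.Odd
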