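import Mathlib
import Pool.Agent.H467R3.Odd.Cube

set_option autoImplicit false

namespace Pool.Agent.H467R3.Odd

open Finset Filter
open scoped Classical

/-- the differences below `N = ∏ p ∈ Q, p` with all residues in `{0, 1, -1}`, an odd number of
them nonzero -/
noncomputable def base (Q : Finset ℕ) : Finset ℕ :=
  (Finset.Ico 1 (∏ p ∈ Q, p)).filter fun m =>
    (∀ p ∈ Q, m % p = 0 ∨ m % p = 1 ∨ m % p = p - 1) ∧ Odd (Q.filter fun p => m % p ≠ 0).card

theorem crt_dvd (Q : Finset ℕ) (hQ : ∀ p ∈ Q, p.Prime) (m : ℤ)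
    (h : ∀ p ∈ Q, (p : ℤ) ∣ m) : ((∏ p ∈ Q, p : ℕ) : ℤ) ∣ m := by
  push_cast
  apply Finset.prod_dvd_of_coprime
  · intro a ha b hb hab
    simp only [Function.onFun]
    exact Nat.isCoprime_iff_coprime.mpr
      ((Nat.coprime_primes (hQ a ha) (hQ b hb)).mpr hab)
  · exact h

/-- every set of more than `∏ (p - 1)` integers in an interval of length `∏ p` has a difference
in `base Q` -/
theorem interval (Q : Finset ℕ) (hQ : ∀ p ∈ Q, p.Prime) (h3 : ∀ p ∈ Q, 3 ≤ p) (x : ℕ)
    (S : Finset ℕ) (hS : S ⊆ Finset.Ico x (x + ∏ p ∈ Q, p))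
    (hc : ∏ p ∈ Q, (p - 1) < S.card) :
    ∃ a ∈ S, ∃ b ∈ S, a < b ∧ b - a ∈ base Q := by
  let q : Q → ℕ := fun i => i.1
  have hne : ∀ i, NeZero (q i) := fun i => ⟨(hQ i.1 i.2).ne_zero⟩
  let φ : ℕ → (∀ i, ZMod (q i)) := fun n i => (n : ZMod (q i))
  have hinj : Set.InjOn φ (S : Set ℕ) := by
    intro a ha b hb hab
    have ha' := Finset.mem_Ico.mp (hS ha)
    have hb' := Finset.mem_Ico.mp (hS hb)
    have hd : ∀ p ∈ Q, (p : ℤ) ∣ (a : ℤ) - b := by
      intro p hp
      have h := congrFun hab ⟨p, hp⟩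
      have h' : ((a : ℤ) : ZMod p) = ((b : ℤ) : ZMod p) := by
        simpa [φ, q] using h
      have := (ZMod.intCast_eq_intCast_iff_dvd_sub _ _ _).mp h'
      rw [← dvd_neg]; simpa using this
    have hN := crt_dvd Q hQ _ hd
    have h0 : (a : ℤ) - b = 0 := by
      apply Int.eq_zero_of_abs_lt_dvd hN
      rw [abs_lt]; constructor <;> omega
    omega
  have hA : ∏ i, (q i - 1) < (S.image φ).card := by
    rw [card_image_of_injOn hinj]
    have : ∏ i : Q, (q i - 1) = ∏ p ∈ Q, (p - 1) := by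
      rw [← Finset.prod_attach Q]
      rfl
    rw [this]; exact hc
  have hex : ∃ a ∈ S, ∃ b ∈ S, OddStep q (φ b - φ a) := by
    by_contra hcon
    push Not at hcon
    have := card_le q (fun i => (hQ i.1 i.2).odd_of_ne_two (by have := h3 i.1 i.2; omega))
      (fun i => h3 i.1 i.2) (S.image φ) (by
        intro a ha b hb
        obtain ⟨a', ha', rfl⟩ := mem_image.mp ha
        obtain ⟨b', hb', rfl⟩ := mem_image.mp hb
        exact hcon a' ha' b' hb')
    omega
  have hord : ∃ a ∈ S, ∃ b ∈ S, a < b ∧ OddStep q (φ b - φ a) := by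
    obtain ⟨a, ha, b, hb, hab⟩ := hex
    rcases lt_trichotomy a b with h | h | h
    · exact ⟨a, ha, b, hb, h, hab⟩
    · exfalso
      subst h
      have := hab.2
      simp at this
    · refine ⟨b, hb, a, ha, h, ?_⟩
      have := hab.neg q
      rwa [neg_sub] at this
  obtain ⟨a, ha, b, hb, hab, hodd⟩ := hord
  refine ⟨a, ha, b, hb, hab, ?_⟩
  have ha' := Finset.mem_Ico.mp (hS ha)
  have hb' := Finset.mem_Ico.mp (hS hb)
  have hval : ∀ i : Q, (φ b - φ a) i = ((b - a : ℕ) : ZMod (q i)) := by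
    intro i
    simp only [φ, Pi.sub_apply]
    rw [Nat.cast_sub hab.le]
  have hz : ∀ i : Q, (φ b - φ a) i = 0 ↔ (b - a) % i.1 = 0 := by
    intro i
    rw [hval i, ZMod.natCast_eq_zero_iff, Nat.dvd_iff_mod_eq_zero]
  rw [base, mem_filter, mem_Ico]
  refine ⟨⟨by omega, by omega⟩, ?_, ?_⟩
  · intro p hp
    have hp3 := h3 p hp
    rcases hodd.1 ⟨p, hp⟩ with h | h | h
    · left; exact (hz ⟨p, hp⟩).mp h
    · right; left
      rw [hval] at h
      have h' : ((b - a : ℕ) : ZMod p) = ((1 : ℕ) : ZMod p) := by simpa using h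
      have := (ZMod.natCast_eq_natCast_iff' _ _ _).mp h'
      rw [this]; exact Nat.mod_eq_of_lt (by omega)
    · right; right
      rw [hval] at h
      have h' : ((b - a + 1 : ℕ) : ZMod p) = 0 := by
        push_cast
        have : ((b - a : ℕ) : ZMod p) = -1 := h
        rw [this]; ring
      rw [ZMod.natCast_eq_zero_iff] at h'
      obtain ⟨r, hr⟩ := h'
      have hr0 : r ≠ 0 := by rintro rfl; omega
      obtain ⟨r, rfl⟩ := Nat.exists_eq_succ_of_ne_zero hr0
      have h1 : b - a = p * r + (p - 1) := by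
        have : p * (r + 1) = p * r + p := by ring
        rw [Nat.succ_eq_add_one, this] at hr
        omega
      rw [h1, Nat.mul_add_mod]
      exact Nat.mod_eq_of_lt (by omega)
  · have h := hodd.2
    have hcard : (univ.filter (fun i : Q => (φ b - φ a) i ≠ 0)).card =
        (Q.filter fun p => (b - a) % p ≠ 0).card := by
      apply Finset.card_bij (fun i _ => i.1)
      · intro i hi
        simp only [mem_filter, mem_univ, true_and] at hi
        rw [mem_filter]
        exact ⟨i.2, fun h => hi ((hz i).mpr h)⟩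
      · intro i _ j _ hij
        exact Subtype.ext hij
      · intro p hp
        rw [mem_filter] at hp
        refine ⟨⟨p, hp.1⟩, ?_, rfl⟩
        simp only [mem_filter, mem_univ, true_and]
        exact fun h => hp.2 ((hz ⟨p, hp.1⟩).mp h)
    rw [← hcard]; exact h

/-- the parity of the sum of the residues -/
noncomputable def par (Q : Finset ℕ) (n : ℕ) : ZMod 2 := ∑ p ∈ Q, ((n % p : ℕ) : ZMod 2)

theorem par_step (Q : Finset ℕ) (hQ : ∀ p ∈ Q, p.Prime) (h3 : ∀ p ∈ Q, 3 ≤ p) (a m : ℕ)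
    (ha : ∀ p ∈ Q, ¬ p ∣ a) (hb : ∀ p ∈ Q, ¬ p ∣ a + m)
    (hm : ∀ p ∈ Q, m % p = 0 ∨ m % p = 1 ∨ m % p = p - 1)
    (hodd : Odd (Q.filter fun p => m % p ≠ 0).card) :
    par Q (a + m) = par Q a + 1 := by
  have h1 : ∀ p ∈ Q, (((a + m) % p : ℕ) : ZMod 2) =
      ((a % p : ℕ) : ZMod 2) + if m % p ≠ 0 then 1 else 0 := by
    intro p hp
    have hp3 := h3 p hp
    have hpo : Odd p := (hQ p hp).odd_of_ne_two (by omega)
    have ha0 : a % p ≠ 0 := fun h => ha p hp (Nat.dvd_of_mod_eq_zero h)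
    have hb0 : (a + m) % p ≠ 0 := fun h => hb p hp (Nat.dvd_of_mod_eq_zero h)
    have halt : a % p < p := Nat.mod_lt _ (by omega)
    rw [Nat.add_mod] at hb0 ⊢
    rcases hm p hp with h | h | h
    · rw [h]; simp
    · rw [h] at hb0 ⊢
      have hlt : a % p + 1 < p := by
        by_contra hcon
        have : a % p + 1 = p := by omega
        rw [this] at hb0
        simp at hb0
      rw [Nat.mod_eq_of_lt hlt]
      simp
    · rw [h] at hb0 ⊢
      have e : a % p + (p - 1) = (a % p - 1) + p := by omega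
      rw [e, Nat.add_mod_right, Nat.mod_eq_of_lt (by omega)]
      have hne : p - 1 ≠ 0 := by omega
      rw [if_pos hne]
      have e2 : a % p = (a % p - 1) + 1 := by omega
      have e3 : ((a % p : ℕ) : ZMod 2) = (((a % p - 1) + 1 : ℕ) : ZMod 2) := by rw [← e2]
      rw [e3]
      push_cast
      have h2 : (1 : ZMod 2) + 1 = 0 := rfl
      rw [add_assoc, h2, add_zero]
  unfold par
  rw [Finset.sum_congr rfl h1, Finset.sum_add_distrib]
  congr 1
  rw [← Finset.sum_filter, Finset.sum_const, nsmul_eq_mul, mul_one]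
  obtain ⟨r, hr⟩ := hodd
  rw [hr]
  push_cast
  have h2 : (2 : ZMod 2) = 0 := rfl
  rw [h2]; ring

/-- finite sets of odd primes with `k ∏ (p - 1) < ∏ p` -/
theorem exists_primes (k : ℕ) : ∃ Q : Finset ℕ, (∀ p ∈ Q, p.Prime) ∧ (∀ p ∈ Q, 3 ≤ p) ∧
    k * ∏ p ∈ Q, (p - 1) < ∏ p ∈ Q, p := by
  have hns : ¬ Summable (Set.indicator {p : ℕ | p.Prime} (fun n : ℕ => (1 : ℝ) / n)) :=
    not_summable_one_div_on_primes
  have hnn : ∀ n, 0 ≤ Set.indicator {p : ℕ | p.Prime} (fun n : ℕ => (1 : ℝ) / n) n := by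
    intro n
    apply Set.indicator_nonneg
    intro x _
    positivity
  have htend := (not_summable_iff_tendsto_nat_atTop_of_nonneg hnn).mp hns
  obtain ⟨n, hn⟩ := (htend.eventually_gt_atTop ((k : ℝ) + 1)).exists
  set Q : Finset ℕ := (Finset.range n).filter fun p => p.Prime ∧ 3 ≤ p with hQdef
  have hprime : ∀ p ∈ Q, p.Prime := fun p hp => (mem_filter.mp hp).2.1
  have hthree : ∀ p ∈ Q, 3 ≤ p := fun p hp => (mem_filter.mp hp).2.2
  refine ⟨Q, hprime, hthree, ?_⟩
  have hsum : (k : ℝ) < ∑ p ∈ Q, (1 : ℝ) / p := by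
    have h1 : ∑ i ∈ Finset.range n, Set.indicator {p : ℕ | p.Prime} (fun n : ℕ => (1 : ℝ) / n) i
        ≤ ∑ p ∈ Q, (1 : ℝ) / p + 1 / 2 := by
      have h2 : ∀ i ∈ Finset.range n,
          Set.indicator {p : ℕ | p.Prime} (fun n : ℕ => (1 : ℝ) / n) i ≤
            (if i.Prime ∧ 3 ≤ i then (1 : ℝ) / i else 0) + (if i = 2 then 1 / 2 else 0) := by
        intro i _
        by_cases hi : i.Prime
        · rw [Set.indicator_of_mem (by exact hi)]
          by_cases h3 : 3 ≤ i
          · rw [if_pos ⟨hi, h3⟩]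
            split_ifs <;> linarith
          · have : i = 2 := by have := hi.two_le; omega
            subst this
            simp
        · rw [Set.indicator_of_notMem (by exact hi)]
          split_ifs <;> positivity
      refine (Finset.sum_le_sum h2).trans ?_
      rw [Finset.sum_add_distrib, ← Finset.sum_filter]
      apply add_le_add le_rfl
      rw [Finset.sum_ite_eq']
      split_ifs <;> norm_num
    linarith
  have hpos : ∀ p ∈ Q, (0 : ℝ) < p := fun p hp => by
    have := hthree p hp; exact_mod_cast (by omega : 0 < p)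
  have hprod : ∏ p ∈ Q, (1 - 1 / (p : ℝ)) ≤ Real.exp (-∑ p ∈ Q, (1 : ℝ) / p) := by
    rw [← Finset.sum_neg_distrib, Real.exp_sum]
    apply Finset.prod_le_prod
    · intro p hp
      have h3 : (3 : ℝ) ≤ p := by exact_mod_cast hthree p hp
      have : (1 : ℝ) / p ≤ 1 := by rw [div_le_one (hpos p hp)]; linarith
      linarith
    · intro p _
      have := Real.add_one_le_exp (-((1 : ℝ) / p))
      linarith
  have hexp : (k : ℝ) * Real.exp (-∑ p ∈ Q, (1 : ℝ) / p) < 1 := by
    have h1 : (k : ℝ) < Real.exp (∑ p ∈ Q, (1 : ℝ) / p) := by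
      calc (k : ℝ) < ∑ p ∈ Q, (1 : ℝ) / p := hsum
        _ ≤ (∑ p ∈ Q, (1 : ℝ) / p) + 1 := by linarith
        _ ≤ _ := Real.add_one_le_exp _
    rw [Real.exp_neg, ← div_eq_mul_inv, div_lt_one (Real.exp_pos _)]
    exact h1
  have hreal : ((k * ∏ p ∈ Q, (p - 1) : ℕ) : ℝ) < ((∏ p ∈ Q, p : ℕ) : ℝ) := by
    push_cast
    have h1 : ∏ p ∈ Q, (((p - 1 : ℕ)) : ℝ) = (∏ p ∈ Q, (1 - 1 / (p : ℝ))) * ∏ p ∈ Q, (p : ℝ) := by
      rw [← Finset.prod_mul_distrib]
      apply Finset.prod_congr rfl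
      intro p hp
      rw [Nat.cast_sub (by have := hthree p hp; omega)]
      have := (hpos p hp).ne'
      field_simp
      simp
    rw [h1]
    have hP : (0 : ℝ) < ∏ p ∈ Q, (p : ℝ) := Finset.prod_pos hpos
    calc (k : ℝ) * ((∏ p ∈ Q, (1 - 1 / (p : ℝ))) * ∏ p ∈ Q, (p : ℝ))
        = ((k : ℝ) * ∏ p ∈ Q, (1 - 1 / (p : ℝ))) * ∏ p ∈ Q, (p : ℝ) := by ring
      _ ≤ ((k : ℝ) * Real.exp (-∑ p ∈ Q, (1 : ℝ) / p)) * ∏ p ∈ Q, (p : ℝ) := by
          gcongr
      _ < 1 * ∏ p ∈ Q, (p : ℝ) := mul_lt_mul_of_pos_right hexp hP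
      _ = _ := one_mul _
  exact_mod_cast hreal

end Pool.Agent.H467R3.Odd
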