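import Mathlib
import Pool.Agent.H467R3.Odd.Main

set_option autoImplicit false

namespace Pool.Agent.H467R3.Odd

open Finset Filter
open scoped Classical

/-- the differences used: `m (N + 1)` with `m` in `base Q` -/
noncomputable def R (Q : Finset ℕ) : Finset ℕ :=
  (base Q).image fun m => m * (∏ p ∈ Q, p + 1)

theorem window (Q : Finset ℕ) (hQ : ∀ p ∈ Q, p.Prime) (h3 : ∀ p ∈ Q, 3 ≤ p) (k : ℕ)
    (hk : k * ∏ p ∈ Q, (p - 1) < ∏ p ∈ Q, p) (x : ℕ) (S : Finset ℕ)
    (hS : S ⊆ Finset.Ico x (x + (∏ p ∈ Q, p + 1) * ∏ p ∈ Q, p))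
    (hc : (∏ p ∈ Q, p + 1) * ∏ p ∈ Q, p < k * S.card) :
    ∃ a ∈ S, ∃ b ∈ S, a < b ∧ b - a ∈ R Q := by
  set N := ∏ p ∈ Q, p with hN
  set P := ∏ p ∈ Q, (p - 1) with hP
  have hr : ∃ r ∈ Finset.range (N + 1), P < (S.filter fun n => n % (N + 1) = r).card := by
    by_contra hcon
    push Not at hcon
    have h1 : S.card = ∑ r ∈ Finset.range (N + 1), (S.filter fun n => n % (N + 1) = r).card := by
      apply Finset.card_eq_sum_card_fiberwise
      intro n _
      simp only [coe_range, Set.mem_Iio]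
      exact Nat.mod_lt _ (Nat.succ_pos _)
    have h2 : S.card ≤ (N + 1) * P := by
      rw [h1]
      calc _ ≤ ∑ _r ∈ Finset.range (N + 1), P := Finset.sum_le_sum hcon
        _ = (N + 1) * P := by simp
    have h4 : k * S.card ≤ (N + 1) * (k * P) := by
      calc k * S.card ≤ k * ((N + 1) * P) := Nat.mul_le_mul_left _ h2
        _ = _ := by ring
    have h5 : (N + 1) * (k * P) ≤ (N + 1) * N := Nat.mul_le_mul_left _ hk.le
    omega
  obtain ⟨r, hr, hcard⟩ := hr
  rw [Finset.mem_range] at hr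
  set T := S.filter fun n => n % (N + 1) = r with hT
  set y := (x + N - r) / (N + 1) with hy
  have hrep : ∀ n ∈ T, n = (N + 1) * (n / (N + 1)) + r := by
    intro n hn
    have h1 := (mem_filter.mp hn).2
    have := Nat.div_add_mod n (N + 1)
    omega
  have hsub : T.image (fun n => n / (N + 1)) ⊆ Finset.Ico y (y + N) := by
    intro m hm
    obtain ⟨n, hn, rfl⟩ := mem_image.mp hm
    have h1 := hrep n hn
    have h2 := Finset.mem_Ico.mp (hS (mem_filter.mp hn).1)
    have e1 : (N + 1) * y ≤ x + N - r := Nat.mul_div_le _ _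
    have e2 : x + N - r < (N + 1) * (y + 1) := by
      rw [hy]; exact Nat.lt_mul_div_succ _ (Nat.succ_pos _)
    set m := n / (N + 1) with hm
    rw [Finset.mem_Ico]
    constructor
    · by_contra hcon
      push Not at hcon
      have : (N + 1) * (m + 1) ≤ (N + 1) * y := Nat.mul_le_mul_left _ hcon
      have e3 : (N + 1) * (m + 1) = (N + 1) * m + (N + 1) := by ring
      omega
    · by_contra hcon
      push Not at hcon
      have : (N + 1) * (y + N) ≤ (N + 1) * m := Nat.mul_le_mul_left _ hcon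
      have e3 : (N + 1) * (y + N) = (N + 1) * y + (N + 1) * N := by ring
      have e4 : (N + 1) * (y + 1) = (N + 1) * y + (N + 1) := by ring
      omega
  have hinj : Set.InjOn (fun n => n / (N + 1)) (T : Set ℕ) := by
    intro a ha b hb hab
    rw [hrep a ha, hrep b hb]
    simp only at hab
    rw [hab]
  obtain ⟨a, ha, b, hb, hab, hbase⟩ := interval Q hQ h3 y (T.image fun n => n / (N + 1)) hsub
    (by rw [card_image_of_injOn hinj]; exact hcard)
  obtain ⟨a', ha', rfl⟩ := mem_image.mp ha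
  obtain ⟨b', hb', rfl⟩ := mem_image.mp hb
  have ea := hrep a' ha'
  have eb := hrep b' hb'
  have hlt : (N + 1) * (a' / (N + 1)) < (N + 1) * (b' / (N + 1)) :=
    Nat.mul_lt_mul_of_pos_left hab (Nat.succ_pos _)
  refine ⟨a', (mem_filter.mp ha').1, b', (mem_filter.mp hb').1, by omega, ?_⟩
  rw [R, mem_image]
  refine ⟨_, hbase, ?_⟩
  rw [← hN, Nat.sub_mul]
  have c1 : b' / (N + 1) * (N + 1) = (N + 1) * (b' / (N + 1)) := by ring
  have c2 : a' / (N + 1) * (N + 1) = (N + 1) * (a' / (N + 1)) := by ring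
  rw [c1, c2]
  omega

theorem R_mod (Q : Finset ℕ) (m : ℕ) (hm : m ∈ R Q) :
    ∏ p ∈ Q, p < m ∧ (∀ p ∈ Q, m % p = 0 ∨ m % p = 1 ∨ m % p = p - 1) ∧
      Odd (Q.filter fun p => m % p ≠ 0).card := by
  obtain ⟨m', hm', rfl⟩ := mem_image.mp hm
  rw [base, mem_filter, mem_Ico] at hm'
  have hmod : ∀ p ∈ Q, (m' * (∏ p ∈ Q, p + 1)) % p = m' % p := by
    intro p hp
    obtain ⟨c, hc⟩ := Finset.dvd_prod_of_mem (fun p => p) hp
    rw [hc]
    have : m' * (p * c + 1) = m' + p * (m' * c) := by ring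
    rw [this, Nat.add_mul_mod_self_left]
  refine ⟨?_, ?_, ?_⟩
  · have h1 : 1 * (∏ p ∈ Q, p + 1) ≤ m' * (∏ p ∈ Q, p + 1) := Nat.mul_le_mul_right _ hm'.1.1
    omega
  · intro p hp
    rw [hmod p hp]; exact hm'.2.1 p hp
  · have : (Q.filter fun p => (m' * (∏ p ∈ Q, p + 1)) % p ≠ 0) =
        Q.filter fun p => m' % p ≠ 0 := by
      apply Finset.filter_congr
      intro p hp
      rw [hmod p hp]
    rw [this]; exact hm'.2.2

theorem two_col (Q : Finset ℕ) (hQ : ∀ p ∈ Q, p.Prime) (h3 : ∀ p ∈ Q, 3 ≤ p) (a b : ℕ)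
    (hab : a < b) (ha : ∀ p ∈ Q, ¬ p ∣ a) (hb : ∀ p ∈ Q, ¬ p ∣ b) (hR : b - a ∈ R Q) :
    par Q a ≠ par Q b := by
  obtain ⟨-, h1, h2⟩ := R_mod Q _ hR
  have e : a + (b - a) = b := by omega
  have := par_step Q hQ h3 a (b - a) ha (by rw [e]; exact hb) h1 h2
  rw [e] at this
  rw [this]
  intro h
  have : (1 : ZMod 2) = 0 := by
    have h' : par Q a + 0 = par Q a + 1 := by rw [add_zero]; exact h
    exact (add_left_cancel h').symm
  exact absurd this (by decide)

theorem main (k : ℕ) (hk : 1 ≤ k) : ∃ (N L : ℕ) (R : Finset ℕ), 0 < N ∧ 0 < L ∧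
    (∀ m ∈ R, 0 < m) ∧
    (∀ (x : ℕ) (S : Finset ℕ), S ⊆ Finset.Ico x (x + L) → L < k * S.card →
      ∃ a ∈ S, ∃ b ∈ S, a < b ∧ b - a ∈ R) ∧
    (∀ A : Set ℕ, 1 / (k : ℝ) < limsup
        (fun n : ℕ => ((A ∩ Set.Iio n).ncard : ℝ) / (n : ℝ)) atTop →
      ∃ a ∈ A, ∃ b ∈ A, a < b ∧ b - a ∈ R) ∧
    (∀ r : ℕ, r < k → ∀ c : ℕ → Fin r, ∃ a b : ℕ, a < b ∧ c a = c b ∧ b - a ∈ R) ∧
    (∃ c : ℕ → Fin 2, ∀ a b : ℕ, a < b → a.Coprime N → b.Coprime N → c a = c b → b - a ∉ R) ∧
    (∃ c : ℕ → Fin 2, ∀ p q : ℕ, p.Prime → q.Prime → N < p → p < q → c p = c q → q - p ∉ R) ∧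
    (∃ c : ℕ → Fin 3, ∀ p q : ℕ, p.Prime → q.Prime → p < q → c p = c q → q - p ∉ R) := by
  obtain ⟨Q, hQ, h3, hlt⟩ := exists_primes k
  set N := ∏ p ∈ Q, p with hN
  have hNpos : 0 < N := Finset.prod_pos fun p hp => (hQ p hp).pos
  have hwin : ∀ (x : ℕ) (S : Finset ℕ), S ⊆ Finset.Ico x (x + (N + 1) * N) →
      (N + 1) * N < k * S.card → ∃ a ∈ S, ∃ b ∈ S, a < b ∧ b - a ∈ R Q :=
    window Q hQ h3 k hlt
  have hdvdN : ∀ p ∈ Q, p ∣ N := fun p hp => Finset.dvd_prod_of_mem (fun p => p) hp
  have hcop : ∀ a : ℕ, a.Coprime N → ∀ p ∈ Q, ¬ p ∣ a := by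
    intro a ha p hp hpa
    have h1 : p ∣ 1 := by
      rw [← Nat.Coprime.gcd_eq_one ha]
      exact Nat.dvd_gcd hpa (hdvdN p hp)
    exact (hQ p hp).one_lt.ne' (Nat.dvd_one.mp h1)
  have hpr : ∀ a : ℕ, a.Prime → N < a → ∀ p ∈ Q, ¬ p ∣ a := by
    intro a ha hNa p hp hpa
    have h1 : p ≤ N := Nat.le_of_dvd hNpos (hdvdN p hp)
    rcases (Nat.dvd_prime ha).mp hpa with h | h
    · exact (hQ p hp).one_lt.ne' h
    · omega
  have hLpos : 0 < (N + 1) * N := by positivity
  refine ⟨N, (N + 1) * N, R Q, hNpos, hLpos, ?_, hwin, ?_, ?_, ?_, ?_, ?_⟩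
  · intro m hm
    have := (R_mod Q m hm).1
    omega
  · intro A hA
    by_contra hcon
    set L := (N + 1) * N with hL
    have hfree : ∀ (x : ℕ) (S : Finset ℕ), S ⊆ Finset.Ico x (x + L) → (∀ s ∈ S, s ∈ A) →
        k * S.card ≤ L := by
      intro x S hS hSA
      by_contra hc
      push Not at hc
      obtain ⟨a, ha, b, hb, hab, hR⟩ := hwin x S hS hc
      exact hcon ⟨a, hSA a ha, b, hSA b hb, hab, hR⟩
    have hcount : ∀ n : ℕ, k * (A ∩ Set.Iio n).ncard ≤ n + L := by
      intro n
      induction n using Nat.strong_induction_on with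
      | _ n ih =>
        by_cases hn : n < L
        · have h1 : (A ∩ Set.Iio n).ncard = ((Finset.range n).filter (· ∈ A)).card := by
            rw [← Set.ncard_coe_finset]
            congr 1
            ext a; simp [and_comm]
          rw [h1]
          have := hfree 0 ((Finset.range n).filter (· ∈ A)) (by
            intro a ha
            have := (mem_filter.mp ha).1
            rw [Finset.mem_range] at this
            rw [Finset.mem_Ico]; omega) (by
            intro a ha; exact (mem_filter.mp ha).2)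
          omega
        · push Not at hn
          have h1 : (A ∩ Set.Iio n) ⊆ (A ∩ Set.Iio (n - L)) ∪
              (((Finset.Ico (n - L) n).filter (· ∈ A) : Finset ℕ) : Set ℕ) := by
            intro a ha
            by_cases h : a < n - L
            · left; exact ⟨ha.1, h⟩
            · right
              simp only [coe_filter, mem_Ico, Set.mem_ofPred_eq]
              exact ⟨⟨by omega, ha.2⟩, ha.1⟩
          have h2 : (A ∩ Set.Iio n).ncard ≤ (A ∩ Set.Iio (n - L)).ncard +
              ((Finset.Ico (n - L) n).filter (· ∈ A)).card := by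
            have hfin : ((A ∩ Set.Iio (n - L)) ∪
              (((Finset.Ico (n - L) n).filter (· ∈ A) : Finset ℕ) : Set ℕ)).Finite :=
              ((Set.finite_Iio _).subset Set.inter_subset_right).union (Finset.finite_toSet _)
            refine (Set.ncard_le_ncard h1 hfin).trans ?_
            refine (Set.ncard_union_le _ _).trans ?_
            rw [Set.ncard_coe_finset]
          have h4 := ih (n - L) (by omega)
          have h5 := hfree (n - L) ((Finset.Ico (n - L) n).filter (· ∈ A)) (by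
            intro a ha
            have := (mem_filter.mp ha).1
            rw [Finset.mem_Ico] at this ⊢
            omega) (by intro a ha; exact (mem_filter.mp ha).2)
          have h6 : k * (A ∩ Set.Iio n).ncard ≤ k * (A ∩ Set.Iio (n - L)).ncard +
              k * ((Finset.Ico (n - L) n).filter (· ∈ A)).card := by
            rw [← Nat.mul_add]; exact Nat.mul_le_mul_left _ h2
          omega
    have hkpos : (0 : ℝ) < k := by exact_mod_cast hk
    obtain ⟨c, hc1, hc2⟩ := exists_between hA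
    have hfreq := Filter.frequently_lt_of_lt_limsup
      (Filter.IsBoundedUnder.isCoboundedUnder_le
        (Filter.isBoundedUnder_of ⟨0, fun n => by positivity⟩)) hc2
    have hev : ∀ᶠ n : ℕ in atTop, (L : ℝ) / (k * (c - 1 / k)) < n :=
      (tendsto_natCast_atTop_atTop (R := ℝ)).eventually_gt_atTop _
    obtain ⟨n, hn1, hn2, hn3⟩ := (hfreq.and_eventually
      (hev.and (eventually_ge_atTop 1))).exists
    have hnpos : (0 : ℝ) < n := by exact_mod_cast hn3
    rw [lt_div_iff₀ hnpos] at hn1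
    have hcn : (k : ℝ) * ((A ∩ Set.Iio n).ncard : ℝ) ≤ n + L := by exact_mod_cast hcount n
    have hd : 0 < k * (c - 1 / k) := mul_pos hkpos (by linarith)
    rw [div_lt_iff₀ hd] at hn2
    have h7 : (k : ℝ) * (c * n) < n + L := by
      calc (k : ℝ) * (c * n) < k * ((A ∩ Set.Iio n).ncard : ℝ) :=
            mul_lt_mul_of_pos_left hn1 hkpos
        _ ≤ _ := hcn
    have h8 : (n : ℝ) * (k * (c - 1 / k)) = k * (c * n) - n := by
      field_simp
    linarith
  · intro r hr c
    by_contra hcon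
    push Not at hcon
    have hle : ∀ i : Fin r, k * ((Finset.range ((N + 1) * N)).filter fun n => c n = i).card
        ≤ (N + 1) * N := by
      intro i
      by_contra hc
      push Not at hc
      obtain ⟨a, ha, b, hb, hab, hR⟩ := hwin 0 _ (by
        intro n hn
        have := (mem_filter.mp hn).1
        rw [Finset.mem_range] at this
        rw [Finset.mem_Ico]; omega) hc
      exact hcon a b hab (by rw [(mem_filter.mp ha).2, (mem_filter.mp hb).2]) hR
    have hsum : (Finset.range ((N + 1) * N)).card =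
        ∑ i : Fin r, ((Finset.range ((N + 1) * N)).filter fun n => c n = i).card :=
      Finset.card_eq_sum_card_fiberwise fun n _ => by simp
    rw [Finset.card_range] at hsum
    have h1 : k * ((N + 1) * N) ≤ r * ((N + 1) * N) := by
      conv_lhs => rw [hsum]
      rw [Finset.mul_sum]
      calc _ ≤ ∑ _i : Fin r, (N + 1) * N := Finset.sum_le_sum fun i _ => hle i
        _ = _ := by simp
    have := Nat.le_of_mul_le_mul_right h1 hLpos
    omega
  · refine ⟨fun n => (par Q n : ZMod 2), fun a b hab ha hb hc hR => ?_⟩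
    exact two_col Q hQ h3 a b hab (hcop a ha) (hcop b hb) hR hc
  · refine ⟨fun n => (par Q n : ZMod 2), fun p q hp hq hNp hpq hc hR => ?_⟩
    exact two_col Q hQ h3 p q hpq (hpr p hp hNp) (hpr q hq (by omega)) hR hc
  · let c : ℕ → Fin 3 := fun n => if n ≤ N then 2 else
      if par Q n = 0 then 0 else 1
    refine ⟨c, fun p q hp hq hpq hc hR => ?_⟩
    have hbig := (R_mod Q _ hR).1
    by_cases hpN : p ≤ N
    · have h1 : c p = 2 := by simp only [c]; rw [if_pos hpN]
      have h2 : ¬ q ≤ N := by omega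
      have h4 : c q ≠ 2 := by
        simp only [c]; rw [if_neg h2]
        split_ifs <;> decide
      exact h4 (by rw [← hc, h1])
    · have hne := two_col Q hQ h3 p q hpq (hpr p hp (by omega)) (hpr q hq (by omega)) hR
      have h2 : ¬ q ≤ N := by omega
      simp only [c] at hc
      rw [if_neg hpN, if_neg h2] at hc
      have h01 : ∀ z : ZMod 2, z = 0 ∨ z = 1 := by decide
      rcases h01 (par Q p) with e1 | e1 <;> rcases h01 (par Q q) with e2 | e2 <;>
        rw [e1, e2] at hc hne
      · exact hne rfl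
      · revert hc; decide
      · revert hc; decide
      · exact hne rfl

end Pool.Agent.H467R3.Odd
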